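import Mathlib

/-! Definitions used in the statement. -/

open Set MeasureTheory
open scoped RealInnerProductSpace

namespace Pool.Agent.H402AW

/-- `ℝ³` -/
abbrev V := EuclideanSpace ℝ (Fin 3)

/-- standard unit vectors -/
noncomputable def ev (i : Fin 3) : V := EuclideanSpace.single i 1

/-- divergence -/
noncomputable def divg (v : V → V) (x : V) : ℝ := ∑ i, (fderiv ℝ v x (ev i)) i

/-- `C^1` compactly supported divergence-free fields -/
structure TF (v : V → V) : Prop where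
  cd : ContDiff ℝ 1 v
  cs : HasCompactSupport v
  dv : ∀ x, divg v x = 0

/-- `L²` pairing -/
noncomputable def ip (u v : V → V) : ℝ := ∫ x, ⟪u x, v x⟫

/-- the trilinear form `∫ u · (Dw) v` -/
noncomputable def tri (u w v : V → V) : ℝ := ∫ x, ⟪u x, fderiv ℝ w x (v x)⟫

/-- Dirichlet form `∫ ∑ᵢ ∂ᵢu · ∂ᵢv` -/
noncomputable def dir (u v : V → V) : ℝ := ∫ x, ∑ i, ⟪fderiv ℝ u x (ev i), fderiv ℝ v x (ev i)⟫

/-- `C^1` compactly supported divergence-free fields in the `L²`-closure of the span of `Φ` -/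
def InX (Φ : ℕ → V → V) (v : V → V) : Prop :=
  TF v ∧ ∀ η > 0, ∃ w ∈ Submodule.span ℝ (range Φ), ∫ x, ‖v x - w x‖ ^ 2 ≤ η

/-- Solutions on `[0, T]` of the Galerkin projection, to the closed span of `Φ`, of the
Navier-Stokes equations with viscosity `ν`, bounded in the critical space `L^3`. -/
structure CSol (ν : ℝ) (Φ : ℕ → V → V) (u0 : V → V) (T : ℝ) (u : ℝ → V → V) : Prop where
  init : u 0 = u0
  mem : ∀ t ∈ Set.Icc 0 T, InX Φ (u t)
  bdd : ∃ C, ∀ t ∈ Set.Icc 0 T, ∫ x, ‖u t x‖ ^ 3 ≤ C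
  eq : ∀ k, ∀ t ∈ Set.Icc 0 T, HasDerivWithinAt (fun s => ip (u s) (Φ k))
    (tri (u t) (Φ k) (u t) - ν * dir (u t) (Φ k)) (Set.Icc 0 T) t

/-- uniform bounds, in the sup norm and in `L¹`, for the orthogonal projections onto the spans of
`Φ 0, …, Φ (N - 1)` -/
def PBd (Φ : ℕ → V → V) (K : ℝ) : Prop :=
  ∀ (N : ℕ) (f v : V → V), Continuous f → HasCompactSupport f →
    v ∈ Submodule.span ℝ (Φ '' Set.Iio N) → (∀ k < N, ip v (Φ k) = ip f (Φ k)) →
    (∀ B, (∀ x, ‖f x‖ ≤ B) → ∀ x, ‖v x‖ ≤ K * B) ∧ ∫ x, ‖v x‖ ≤ K * ∫ x, ‖f x‖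

/-- rotation by the angle `θ` about the `x₂`-axis -/
noncomputable def rz (θ : ℝ) (x : V) : V :=
  (Real.cos θ * x 0 - Real.sin θ * x 1) • ev 0 + (Real.sin θ * x 0 + Real.cos θ * x 1) • ev 1
    + x 2 • ev 2

/-- axisymmetric fields (swirl allowed) -/
def Axi (u : V → V) : Prop := ∀ θ x, u (rz θ x) = rz θ (u x)

end Pool.Agent.H402AW
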