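import Mathlib
import Pool.Agent.H402AW.Rep

/-! Axisymmetric fields. -/

open Set MeasureTheory Filter Topology Finset
open scoped RealInnerProductSpace ContDiff

namespace Pool.Agent.H402AW

theorem rz_add (θ : ℝ) (x y : V) : rz θ (x + y) = rz θ x + rz θ y := by
  unfold rz
  simp only [PiLp.add_apply]
  module

theorem rz_smul (θ c : ℝ) (x : V) : rz θ (c • x) = c • rz θ x := by
  unfold rz
  simp only [PiLp.smul_apply, smul_eq_mul]
  module

theorem rz_zero (θ : ℝ) : rz θ 0 = 0 := by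
  have := rz_smul θ 0 0
  simpa using this

theorem rz_neg (θ : ℝ) (x : V) : rz θ (-x) = - rz θ x := by
  rw [← neg_one_smul ℝ x, rz_smul, neg_one_smul]

theorem rz_sub (θ : ℝ) (x y : V) : rz θ (x - y) = rz θ x - rz θ y := by
  rw [sub_eq_add_neg, rz_add, rz_neg, ← sub_eq_add_neg]

theorem rz_sum {ι : Type*} (θ : ℝ) (s : Finset ι) (f : ι → V) :
    rz θ (∑ i ∈ s, f i) = ∑ i ∈ s, rz θ (f i) := by
  classical
  induction s using Finset.induction_on with
  | empty => simpa using rz_zero θ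
  | insert a s ha ih => rw [Finset.sum_insert ha, Finset.sum_insert ha, rz_add, ih]

theorem rz_apply0 (θ : ℝ) (x : V) : (rz θ x) 0 = Real.cos θ * x 0 - Real.sin θ * x 1 := by
  simp [rz, ev]

theorem rz_apply1 (θ : ℝ) (x : V) : (rz θ x) 1 = Real.sin θ * x 0 + Real.cos θ * x 1 := by
  simp [rz, ev]

theorem rz_apply2 (θ : ℝ) (x : V) : (rz θ x) 2 = x 2 := by
  simp [rz, ev]

theorem rz_ev0 (θ : ℝ) : rz θ (ev 0) = Real.cos θ • ev 0 + Real.sin θ • ev 1 := by
  simp [rz, ev]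

theorem rz_ev1 (θ : ℝ) : rz θ (ev 1) = - Real.sin θ • ev 0 + Real.cos θ • ev 1 := by
  simp [rz, ev]

theorem rz_ev2 (θ : ℝ) : rz θ (ev 2) = ev 2 := by
  simp [rz, ev]

theorem rz_axis (θ c : ℝ) : rz θ (c • ev 2) = c • ev 2 := by
  rw [rz_smul, rz_ev2]

theorem rz_norm_sq (θ : ℝ) (x : V) : ‖rz θ x‖ ^ 2 = ‖x‖ ^ 2 := by
  rw [EuclideanSpace.real_norm_sq_eq, EuclideanSpace.real_norm_sq_eq, Fin.sum_univ_three,
    Fin.sum_univ_three, rz_apply0, rz_apply1, rz_apply2]
  have h := Real.sin_sq_add_cos_sq θ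
  linear_combination (x 0 ^ 2 + x 1 ^ 2) * h

theorem rz_norm (θ : ℝ) (x : V) : ‖rz θ x‖ = ‖x‖ := by
  have h := rz_norm_sq θ x
  rwa [sq_eq_sq₀ (norm_nonneg _) (norm_nonneg _)] at h

theorem rz_cont (θ : ℝ) : Continuous (rz θ) := by
  unfold rz
  fun_prop

namespace Axi

variable {u v : V → V}

theorem zero : Axi (0 : V → V) := fun θ x => by simp [rz_zero]

theorem add (hu : Axi u) (hv : Axi v) : Axi (u + v) := fun θ x => by
  rw [Pi.add_apply, Pi.add_apply, hu, hv, rz_add]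

theorem smul (hu : Axi u) (c : ℝ) : Axi (c • u) := fun θ x => by
  rw [Pi.smul_apply, Pi.smul_apply, hu, rz_smul]

theorem sub (hu : Axi u) (hv : Axi v) : Axi (u - v) := fun θ x => by
  rw [Pi.sub_apply, Pi.sub_apply, hu, hv, rz_sub]

theorem span {Φ : ℕ → V → V} (h : ∀ k, Axi (Φ k)) {w : V → V}
    (hw : w ∈ Submodule.span ℝ (range Φ)) : Axi w := by
  induction hw using Submodule.span_induction with
  | mem x hx => obtain ⟨j, rfl⟩ := hx; exact h j
  | zero => exact zero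
  | add x y _ _ hx hy => exact hx.add hy
  | smul c x _ hx => exact hx.smul c

theorem of_off (hu : Continuous u) (h : ∀ θ x, x ≠ 0 → u (rz θ x) = rz θ (u x)) : Axi u := by
  intro θ
  have h1 : Continuous fun x => u (rz θ x) := hu.comp (rz_cont θ)
  have h2 : Continuous fun x => rz θ (u x) := (rz_cont θ).comp hu
  have h3 : Dense ({0}ᶜ : Set V) := dense_compl_singleton 0
  have h4 := Continuous.ext_on h3 h1 h2 fun x hx => h θ x hx
  intro x
  exact congrFun h4 x

end Axi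

end Pool.Agent.H402AW
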