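import Mathlib
import Pool.Agent.H402AW.Dyn

/-! Uniform bounds for large `lam` and the main nonexistence statement for given profiles. -/

open Set MeasureTheory Filter Topology Finset
open scoped RealInnerProductSpace ContDiff

namespace Pool.Agent.H402AW

theorem ev_scl : ∀ᶠ lam in (atTop : Filter ℝ), Scl (MM lam) (EE lam) := by
  filter_upwards [ev_L_ge 400, eventually_ge_atTop 1] with lam h h1
  have hM2 : ∀ n, MM lam n ^ 2 = Real.exp (LL lam n) := by
    intro n; rw [MM_pow]; congr 1; push_cast; ring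
  constructor
  · exact fun n => MM_pos lam n
  · rw [hM2]
    have := Real.add_one_le_exp (LL lam 0)
    linarith [h 0]
  · intro n
    rw [hM2, hM2, LL_succ]
    have e1 : Real.exp (6 / 5 * LL lam n) = Real.exp (1 / 5 * LL lam n) * Real.exp (LL lam n) := by
      rw [← Real.exp_add]; congr 1; ring
    rw [e1]
    refine mul_le_mul_of_nonneg_right ?_ (Real.exp_pos _).le
    have := Real.add_one_le_exp (1 / 5 * LL lam n)
    linarith [h n]
  · exact fun n => EE_pos lam n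
  · exact fun j => EE_summable h1 j

theorem ev_seed (b : ℝ) (hb : 0 ≤ b) : ∀ᶠ lam in (atTop : Filter ℝ), ∀ n : ℕ,
    Real.sqrt (EE lam n) * MM lam n ^ 5 * b ≤ (1 / 2) ^ (n + 1) := by
  filter_upwards [ev_EE_le, ev_dom (2 * b) 1 0 (by norm_num) (by norm_num) (-17) 0 (by norm_num),
    ev_L_ge 0] with lam h1 h2 h0 n
  have e1 : Real.sqrt (EE lam n) ≤ Real.exp (-(20 * LL lam n)) := by
    rw [show -(20 * LL lam n) = (-(40 * LL lam n)) / 2 by ring, Real.exp_half]
    exact Real.sqrt_le_sqrt (h1 n)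
  have e2 : MM lam n ^ 5 = Real.exp (5 / 2 * LL lam n) := by
    rw [MM_pow]; congr 1; push_cast; ring
  have e3 : Real.sqrt (EE lam n) * MM lam n ^ 5 ≤ Real.exp (-17 * LL lam n) := by
    rw [e2]
    refine (mul_le_mul_of_nonneg_right e1 (Real.exp_pos _).le).trans ?_
    rw [← Real.exp_add]
    exact Real.exp_le_exp.mpr (by linarith [h0 n])
  have e4 := h2 n
  rw [zero_mul, Real.exp_zero, pow_one, pow_zero, mul_one] at e4
  have e5 : Real.sqrt (EE lam n) * MM lam n ^ 5 * b ≤ Real.exp (-17 * LL lam n) * b :=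
    mul_le_mul_of_nonneg_right e3 hb
  refine e5.trans ?_
  have hp : (0 : ℝ) < 64 ^ n := by positivity
  have h2n : (2 : ℝ) ^ n ≤ 64 ^ n := pow_le_pow_left₀ (by norm_num) (by norm_num) n
  rw [one_div, inv_pow, ← one_div, le_div_iff₀ (by positivity), pow_succ]
  have h3 : Real.exp (-17 * LL lam n) * b * (2 ^ n * 2)
      ≤ Real.exp (-17 * LL lam n) * b * (64 ^ n * 2) :=
    mul_le_mul_of_nonneg_left (by linarith) (by positivity)
  linarith

theorem geo_half (n : ℕ) : ∑ l ∈ range n, (1 / 2 : ℝ) ^ (l + 1) ≤ 1 := by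
  have h : ∀ n, ∑ l ∈ range n, (1 / 2 : ℝ) ^ (l + 1) = 1 - (1 / 2) ^ n := by
    intro n
    induction n with
    | zero => simp
    | succ n ih => rw [sum_range_succ, ih, pow_succ]; ring
  rw [h]
  have : (0 : ℝ) < (1 / 2) ^ n := by positivity
  linarith

theorem bound_of_ne {f : V → ℝ} (hf : Continuous f) {B : ℝ} (h : ∀ x, x ≠ 0 → f x ≤ B) (x : V) :
    f x ≤ B := by
  have hc : IsClosed {x | f x ≤ B} := isClosed_le hf continuous_const
  have hs : ({0}ᶜ : Set V) ⊆ {x | f x ≤ B} := fun x hx => h x hx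
  have := hc.closure_subset_iff.mpr hs
  rw [(dense_compl_singleton (0 : V)).closure_eq] at this
  exact this (mem_univ x)

section

variable {φ ρ ψ : V → V} {x₁ : V}

theorem ev_unif (P : Prof φ ρ ψ x₁) : ∃ B0 B, 0 ≤ B0 ∧ 0 ≤ B ∧ ∀ᶠ lam in (atTop : Filter ℝ),
    (∀ x, ‖PP ψ ρ (MM lam) (EE lam) x‖ ≤ B0) ∧
    ∀ x, ‖fderiv ℝ (PP ψ ρ (MM lam) (EE lam)) x‖ ≤ B := by
  obtain ⟨b0, hb0, hb0'⟩ := cs_bound P.ρT.cont (R := ‖x₁‖ + 1) (fun x hx => P.ρ0 x (by
    have := norm_sub_norm_le x x₁; linarith))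
  obtain ⟨R1, hR1⟩ := P.ρT.out
  obtain ⟨b1, hb1, hb1'⟩ := cs_bound P.ρT.contd (fun x hx => (hR1 x hx).2)
  obtain ⟨p0, hp0, hp0'⟩ := cs_bound P.ψT.cont (R := sr ψ) P.ψ0'
  obtain ⟨R2, hR2⟩ := P.ψT.out
  obtain ⟨p1, hp1, hp1'⟩ := cs_bound P.ψT.contd (fun x hx => (hR2 x hx).2)
  refine ⟨p0 + 1, p1 + 1, by positivity, by positivity, ?_⟩
  filter_upwards [ev_scl, ev_seed b0 hb0, ev_seed b1 hb1, ev_L_ge 0] with lam S h0 h1 hL
  have hM1 : ∀ n, 1 ≤ MM lam n := fun n => by
    unfold MM; exact Real.one_le_exp (by linarith [hL n])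
  have hPT := PP_TF P S
  constructor
  · refine bound_of_ne (by have := hPT.cont; fun_prop) fun x hx => ?_
    obtain ⟨n, hn⟩ := exists_rad S hx
    rw [PP_out P S n x (by linarith [S.rad_pos n]), Pn_apply]
    refine (norm_add_le _ _).trans (add_le_add (hp0' x) ?_)
    refine (norm_sum_le _ _).trans (le_trans (sum_le_sum fun l _ => ?_) (geo_half n))
    rw [norm_smul, Real.norm_eq_abs, abs_of_nonneg (Real.sqrt_nonneg _)]
    refine le_trans ?_ (h0 l)
    unfold sc
    have hM := hM1 l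
    rw [norm_smul, Real.norm_eq_abs, abs_of_nonneg (by positivity), mul_assoc]
    refine mul_le_mul_of_nonneg_left ?_ (Real.sqrt_nonneg _)
    exact mul_le_mul (pow_le_pow_right₀ hM (by norm_num)) (hb0' _) (norm_nonneg _) (by positivity)
  · refine bound_of_ne (by have := hPT.contd; fun_prop) fun x hx => ?_
    obtain ⟨n, hn⟩ := exists_rad S hx
    rw [(PP_near P S n x (by linarith [S.rad_pos n])).fderiv_eq]
    have e1 : ∀ n, ‖fderiv ℝ (Pn ψ ρ (MM lam) (EE lam) n) x‖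
        ≤ p1 + ∑ l ∈ range n, (1 / 2 : ℝ) ^ (l + 1) := by
      intro n
      induction n with
      | zero => unfold Pn; simpa using hp1' x
      | succ n ih =>
        rw [Pn_succ, fderiv_add ((Pn_TF P S n).diff x) (((ρT P S n).smul _).diff x),
          fderiv_const_smul ((ρT P S n).diff x), sc_fderiv P.ρT.diff, sum_range_succ, ← add_assoc]
        refine (norm_add_le _ _).trans (add_le_add ih ?_)
        rw [norm_smul, norm_smul, Real.norm_eq_abs, Real.norm_eq_abs,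
          abs_of_nonneg (Real.sqrt_nonneg _), abs_of_nonneg (by have := MM_pos lam n; positivity)]
        refine le_trans ?_ (h1 n)
        rw [mul_assoc]
        refine mul_le_mul_of_nonneg_left ?_ (Real.sqrt_nonneg _)
        exact mul_le_mul_of_nonneg_left (hb1' _) (by have := MM_pos lam n; positivity)
    exact (e1 n).trans (by linarith [geo_half n])

/-- the tail of the pump is small, with a bound which does not depend on the background -/
theorem ev_tail (P : Prof φ ρ ψ x₁) : ∀ᶠ lam in (atTop : Filter ℝ),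
    ∀ x, ‖PP ψ ρ (MM lam) (EE lam) x - ψ x‖ ≤ 1 := by
  obtain ⟨b0, hb0, hb0'⟩ := cs_bound P.ρT.cont (R := ‖x₁‖ + 1) (fun x hx => P.ρ0 x (by
    have := norm_sub_norm_le x x₁; linarith))
  filter_upwards [ev_scl, ev_seed b0 hb0, ev_L_ge 0] with lam S h0 hL
  have hM1 : ∀ n, 1 ≤ MM lam n := fun n => by
    unfold MM; exact Real.one_le_exp (by linarith [hL n])
  have hPT := PP_TF P S
  have hψT := P.ψT
  refine bound_of_ne (by have := hPT.cont; have := hψT.cont; fun_prop) fun x hx => ?_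
  obtain ⟨n, hn⟩ := exists_rad S hx
  rw [PP_out P S n x (by linarith [S.rad_pos n]), Pn_apply, add_sub_cancel_left]
  refine (norm_sum_le _ _).trans (le_trans (sum_le_sum fun l _ => ?_) (geo_half n))
  rw [norm_smul, Real.norm_eq_abs, abs_of_nonneg (Real.sqrt_nonneg _)]
  refine le_trans ?_ (h0 l)
  unfold sc
  have hM := hM1 l
  rw [norm_smul, Real.norm_eq_abs, abs_of_nonneg (by positivity), mul_assoc]
  refine mul_le_mul_of_nonneg_left ?_ (Real.sqrt_nonneg _)
  exact mul_le_mul (pow_le_pow_right₀ hM (by norm_num)) (hb0' _) (norm_nonneg _) (by positivity)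

/-- initial datum -/
noncomputable def u00 (φ ψ ρ : V → V) (lam d : ℝ) : V → V :=
  sc (MM lam 0) φ + d • sc (MM lam 1) φ + PP ψ ρ (MM lam) (EE lam)

theorem u00_cf (P : Prof φ ρ ψ x₁) {lam : ℝ} (S : Scl (MM lam) (EE lam)) (d : ℝ) :
    cf ψ ρ (MM lam) (EE lam) (u00 φ ψ ρ lam d) = 1 := by
  have hP := PP_TF P S
  have h0 := φT P S 0
  have h1 := (φT P S 1).smul d
  unfold cf u00
  rw [ip_add_left (h0.cont.add h1.cont) hP.cont hP, ip_add_left h0.cont h1.cont hP, ip_smul_left,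
    ip_comm (sc (MM lam 0) φ), ip_φP P S, ip_comm (sc (MM lam 1) φ), ip_φP P S]
  have := PP_ip_pos P S
  rw [mul_zero, add_zero, zero_add, div_self this.ne']

theorem u00_af (P : Prof φ ρ ψ x₁) {lam : ℝ} (S : Scl (MM lam) (EE lam)) (d : ℝ) (n : ℕ) :
    af φ (MM lam) (u00 φ ψ ρ lam d) n = if n = 0 then 1 else if n = 1 then d else 0 := by
  have hP := PP_TF P S
  have h0 := φT P S 0
  have h1 := (φT P S 1).smul d
  have hn := φT P S n
  have hF := φ_pos P
  unfold af u00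
  rw [ip_add_left (h0.cont.add h1.cont) hP.cont hn, ip_add_left h0.cont h1.cont hn, ip_smul_left,
    ip_φP P S, ip_φφ' P S, ip_φφ' P S]
  rcases Nat.eq_zero_or_pos n with h | h
  · subst h
    simp [hF.ne']
  · rcases Nat.lt_or_ge 1 n with h2 | h2
    · rw [if_neg (by omega), if_neg (by omega), if_neg (by omega), if_neg (by omega)]
      simp
    · have : n = 1 := by omega
      subst this
      simp [hF.ne']

theorem u00_out (P : Prof φ ρ ψ x₁) {lam : ℝ} (S : Scl (MM lam) (EE lam)) (d : ℝ) (x : V)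
    (hx : 1 ≤ ‖x‖) : u00 φ ψ ρ lam d x = ψ x := by
  have h0 := S.rad_half 0
  have h1 := S.rad_half 1
  unfold u00
  simp only [Pi.add_apply, Pi.smul_apply]
  rw [φ_out P S 0 x (by linarith), φ_out P S 1 x (by linarith), PP_out P S 0 x (by linarith),
    Pn_apply]
  simp

theorem u00_diff (P : Prof φ ρ ψ x₁) {lam : ℝ} (S : Scl (MM lam) (EE lam)) {d : ℝ}
    (hd : 0 ≤ d) (hd1 : d ≤ 1) (h : ∀ x, ‖PP ψ ρ (MM lam) (EE lam) x - ψ x‖ ≤ 1) :
    ip (u00 φ ψ ρ lam d - ψ) (u00 φ ψ ρ lam d - ψ) ≤ 3 * (2 * ip φ φ + vr 1) := by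
  have hF := φ_pos P
  have ha := φT P S 0
  have hb := (φT P S 1).smul d
  have hc := (PP_TF P S).sub P.ψT
  set a := sc (MM lam 0) φ
  set b := d • sc (MM lam 1) φ with hbdef
  set c := PP ψ ρ (MM lam) (EE lam) - ψ with hcdef
  have e0 : u00 φ ψ ρ lam d - ψ = a + b + c := by
    unfold u00
    rw [hcdef]; abel
  have hT := (ha.add hb).add hc
  have e1 : ip (a + b + c) (a + b + c) ≤ 3 * (ip a a + ip b b + ip c c) := by
    have ia := ip_int ha.cont ha
    have ib := ip_int hb.cont hb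
    have ic := ip_int hc.cont hc
    have iab : Integrable (fun x => ⟪a x, a x⟫ + ⟪b x, b x⟫) := ia.add ib
    have iabc : Integrable (fun x => ⟪a x, a x⟫ + ⟪b x, b x⟫ + ⟪c x, c x⟫) := iab.add ic
    have key : ∫ x, 3 * (⟪a x, a x⟫ + ⟪b x, b x⟫ + ⟪c x, c x⟫)
        = 3 * (ip a a + ip b b + ip c c) := by
      rw [integral_const_mul, integral_add iab ic, integral_add ia ib]
      rfl
    rw [← key]
    unfold ip
    refine integral_mono (ip_int hT.cont hT) (iabc.const_mul 3) fun x => ?_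
    simp only [Pi.add_apply, real_inner_self_eq_norm_sq]
    have h1 : ‖a x + b x + c x‖ ≤ ‖a x‖ + ‖b x‖ + ‖c x‖ := norm_add₃_le
    have h2 : ‖a x + b x + c x‖ ^ 2 ≤ (‖a x‖ + ‖b x‖ + ‖c x‖) ^ 2 :=
      pow_le_pow_left₀ (norm_nonneg _) h1 2
    nlinarith [sq_nonneg (‖a x‖ - ‖b x‖), sq_nonneg (‖b x‖ - ‖c x‖), sq_nonneg (‖a x‖ - ‖c x‖)]
  have e2 : ip a a = ip φ φ := sc_ip (S.M_pos 0) φ φ
  have e3 : ip b b = d ^ 2 * ip φ φ := by
    rw [hbdef, ip_smul_left, ip_smul_right, sc_ip (S.M_pos 1)]; ring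
  have e4 : ip c c ≤ 1 * vr 1 := by
    refine (le_abs_self _).trans ?_
    unfold ip
    refine int_le_vr (fun x _ => ?_) (fun x hx => ?_)
    · rw [real_inner_self_eq_norm_sq, abs_of_nonneg (sq_nonneg _)]
      have h1 : ‖c x‖ ≤ 1 := h x
      nlinarith [norm_nonneg (c x)]
    · have h0 := S.rad_half 0
      have : c x = 0 := by
        rw [hcdef, Pi.sub_apply, PP_out P S 0 x (by linarith), Pn_apply]
        simp
      rw [this]; simp
  have e5 : d ^ 2 * ip φ φ ≤ ip φ φ := mul_le_of_le_one_left hF.le (by nlinarith)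
  rw [e0]
  linarith

theorem u00_En (P : Prof φ ρ ψ x₁) {lam : ℝ} (S : Scl (MM lam) (EE lam)) {d Ph : ℝ}
    (hd : 0 ≤ d) (hd1 : d ≤ 1)
    (hPh : ip (PP ψ ρ (MM lam) (EE lam)) (PP ψ ρ (MM lam) (EE lam)) ≤ Ph) (n : ℕ) :
    En φ ψ ρ (MM lam) (EE lam) (u00 φ ψ ρ lam d) n ≤ Ph + 2 * ip φ φ := by
  have hF := φ_pos P
  unfold En
  rw [u00_cf P S]
  have h1 : ∑ m ∈ range n, af φ (MM lam) (u00 φ ψ ρ lam d) m ^ 2 ≤ 2 := by
    have h2 : ∑ m ∈ range n, af φ (MM lam) (u00 φ ψ ρ lam d) m ^ 2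
        ≤ ∑ m ∈ range (n + 2), af φ (MM lam) (u00 φ ψ ρ lam d) m ^ 2 :=
      sum_le_sum_of_subset_of_nonneg (range_mono (by omega)) (fun _ _ _ => sq_nonneg _)
    refine h2.trans ?_
    have h3 : ∀ n, ∑ m ∈ range (n + 2), af φ (MM lam) (u00 φ ψ ρ lam d) m ^ 2 = 1 + d ^ 2 := by
      intro n
      induction n with
      | zero =>
        rw [sum_range_succ, sum_range_succ, range_zero, sum_empty, u00_af P S, u00_af P S]
        simp
      | succ n ih =>
        rw [sum_range_succ, ih, u00_af P S]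
        simp
    rw [h3]
    nlinarith
  have h4 := mul_le_mul_of_nonneg_left h1 hF.le
  linarith

end

end Pool.Agent.H402AW
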