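import Mathlib
import Pool.Agent.H402AW.Good

/-! Continuation, uniqueness and the maximal solution. -/

open Set MeasureTheory Filter Topology
open scoped RealInnerProductSpace ContDiff

namespace Pool.Agent.H402AW

theorem GSol.restrict {ν : ℝ} {Φ : ℕ → V → V} {u0 : V → V} {T T' : ℝ} {u : ℝ → V → V}
    (h : GSol ν Φ u0 T u) (hT' : T' ≤ T) : GSol ν Φ u0 T' u := by
  have hs : Icc (0 : ℝ) T' ⊆ Icc 0 T := Icc_subset_Icc le_rfl hT'
  obtain ⟨C, hC⟩ := h.bdd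
  exact ⟨h.init, fun t ht => h.mem t (hs ht), ⟨C, fun t ht => hC t (hs ht)⟩,
    fun k t ht => (h.eq k t (hs ht)).mono hs⟩

theorem GSol.congr {ν : ℝ} {Φ : ℕ → V → V} {u0 : V → V} {T : ℝ} {u v : ℝ → V → V}
    (h : GSol ν Φ u0 T u) (h0 : 0 ≤ T) (hv : ∀ t ∈ Icc 0 T, v t = u t) : GSol ν Φ u0 T v := by
  obtain ⟨C, hC⟩ := h.bdd
  refine ⟨by rw [hv 0 ⟨le_rfl, h0⟩, h.init], fun t ht => by rw [hv t ht]; exact h.mem t ht,
    ⟨C, fun t ht => by rw [hv t ht]; exact hC t ht⟩, fun k t ht => ?_⟩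
  rw [hv t ht]
  exact (h.eq k t ht).congr (fun s hs => by rw [hv s hs]) (by rw [hv t ht])

theorem glue {f F : ℝ → ℝ} {a b : ℝ} (ha : 0 ≤ a) (hb : 0 ≤ b)
    (h1 : ∀ t ∈ Icc 0 a, HasDerivWithinAt f (F t) (Icc 0 a) t)
    (h2 : ∀ t ∈ Icc a (a + b), HasDerivWithinAt f (F t) (Icc a (a + b)) t) :
    ∀ t ∈ Icc 0 (a + b), HasDerivWithinAt f (F t) (Icc 0 (a + b)) t := by
  intro t ht
  rcases lt_trichotomy t a with h | h | h
  · refine (h1 t ⟨ht.1, h.le⟩).mono_of_mem_nhdsWithin ?_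
    rw [mem_nhdsWithin]
    refine ⟨Iio a, isOpen_Iio, h, fun s hs => ⟨hs.2.1, le_of_lt hs.1⟩⟩
  · subst h
    have h3 := (h1 t ⟨ht.1, le_rfl⟩).union (h2 t ⟨le_rfl, by linarith⟩)
    rwa [Icc_union_Icc_eq_Icc ha (by linarith)] at h3
  · refine (h2 t ⟨h.le, ht.2⟩).mono_of_mem_nhdsWithin ?_
    rw [mem_nhdsWithin]
    refine ⟨Ioi a, isOpen_Ioi, h, fun s hs => ⟨le_of_lt hs.1, hs.2.2⟩⟩

section

variable {φ ρ ψ : V → V} {x₁ : V} {ν T lam R c0 : ℝ} {vd : V → V} {ks Ns : ℕ}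

theorem Good.Qd' (G : Good φ ρ ψ x₁ ν T lam R c0 vd ks Ns) : ∃ C, Qd (Bt φ ψ ρ lam) PI C := by
  have hq : 0 < -hf φ φ := by linarith [G.P.q_pos]
  have hβ : 0 < -hf ρ ρ := by linarith [G.P.β_pos]
  exact ⟨_, bet_Qd hq.le hβ.le (φ_pos G.P) (PP_ip_pos G.P G.S) G.one G.S G.half⟩

theorem Good.lmd_nonneg (G : Good φ ρ ψ x₁ ν T lam R c0 vd ks Ns) (k : ℕ) : 0 ≤ lmd φ ψ ρ lam ν k := by
  have h1 := G.ν_pos
  have h2 := φ_pos G.P
  have h3 := PP_ip_pos G.P G.S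
  cases k with
  | zero =>
    have h4 := dir_self_nonneg (PP ψ ρ (MM lam) (EE lam))
    unfold lmd; positivity
  | succ n =>
    have h4 := dir_self_nonneg φ
    have h5 := MM_pos lam n
    unfold lmd; positivity

theorem Good.co_deriv (G : Good φ ρ ψ x₁ ν T lam R c0 vd ks Ns) {u0 : V → V} {T' : ℝ} {u : ℝ → V → V}
    (hu : GSol ν (Fam φ ψ ρ (MM lam) (EE lam)) u0 T' u) {A : ℝ}
    (hA : ∀ t ∈ Icc 0 T', ∀ k, |co φ ψ ρ lam (u t) k| ≤ A) (k : ℕ) {t : ℝ} (ht : t ∈ Icc 0 T') :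
    HasDerivWithinAt (fun t => co φ ψ ρ lam (u t) k)
      (-(lmd φ ψ ρ lam ν k) * co φ ψ ρ lam (u t) k
        + Nl (Bt φ ψ ρ lam) PI k (fun j => co φ ψ ρ lam (u t) j)) (Icc 0 T') t := by
  cases k with
  | zero =>
    have h1 := match0 (ν := ν) G.P G.S G.half (hu.mem t ht)
    have h2 := c_deriv hu ht
    rw [h1] at h2
    exact h2
  | succ n =>
    have h1 := match1 (ν := ν) G.P G.S G.one G.half (hu.mem t ht) (hA t ht) n
    have h2 := (a_deriv hu n ht).div_const (bb lam n)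
    rw [h1] at h2
    exact h2

theorem Good.eq_of_co (G : Good φ ρ ψ x₁ ν T lam R c0 vd ks Ns) {v w : V → V}
    (hv : InX (Fam φ ψ ρ (MM lam) (EE lam)) v) (hw : InX (Fam φ ψ ρ (MM lam) (EE lam)) w)
    {A : ℝ} (hA : ∀ k, |co φ ψ ρ lam v k| ≤ A)
    (h : ∀ k, co φ ψ ρ lam v k = co φ ψ ρ lam w k) : v = w := by
  have hb := bb_pos lam
  have haf : af φ (MM lam) v = af φ (MM lam) w := by
    ext n
    have h1 : af φ (MM lam) v n / bb lam n = af φ (MM lam) w n / bb lam n := h (n + 1)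
    exact (div_left_inj' (hb n).ne').mp h1
  have hcf : cf ψ ρ (MM lam) (EE lam) v = cf ψ ρ (MM lam) (EE lam) w := h 0
  have hα : ∀ n, |af φ (MM lam) v n| ≤ A * bb lam n := by
    intro n
    have h1 : |af φ (MM lam) v n / bb lam n| ≤ A := hA (n + 1)
    rwa [abs_div, abs_of_pos (hb n), div_le_iff₀ (hb n)] at h1
  have hα' : ∀ n, |af φ (MM lam) w n| ≤ A * bb lam n := by rw [← haf]; exact hα
  rw [eq_Uf G.P G.S G.Wt hv hα, eq_Uf G.P G.S G.Wt hw hα', haf, hcf]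

theorem Good.smooth (G : Good φ ρ ψ x₁ ν T lam R c0 vd ks Ns) {v : V → V}
    (hv : InX (Fam φ ψ ρ (MM lam) (EE lam)) v) {A : ℝ} (hA : ∀ k, |co φ ψ ρ lam v k| ≤ A) :
    ContDiff ℝ ∞ v := by
  have hb := bb_pos lam
  have hα : ∀ n, |af φ (MM lam) v n| ≤ A * bb lam n := by
    intro n
    have h1 : |af φ (MM lam) v n / bb lam n| ≤ A := hA (n + 1)
    rwa [abs_div, abs_of_pos (hb n), div_le_iff₀ (hb n)] at h1
  rw [eq_Uf G.P G.S G.Wt hv hα]
  exact Uf_smooth G.P G.S G.Wt hα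

theorem Good.unique (G : Good φ ρ ψ x₁ ν T lam R c0 vd ks Ns) {T' : ℝ} (h0 : 0 ≤ T') (hT' : T' ≤ T)
    {u v : ℝ → V → V}
    (hu : GSol ν (Fam φ ψ ρ (MM lam) (EE lam)) vd T' u)
    (hv : GSol ν (Fam φ ψ ρ (MM lam) (EE lam)) vd T' v)
    {t : ℝ} (ht : t ∈ Icc 0 T') : u t = v t := by
  obtain ⟨C₁, hC₁⟩ := hu.bdd
  obtain ⟨C₂, hC₂⟩ := hv.bdd
  set C := max (max C₁ C₂) 0 with hC
  obtain ⟨A, hA0, hA⟩ := G.decay (le_max_right (max C₁ C₂) 0 : 0 ≤ C)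
  have hAu := hA T' u h0 hT' hu fun t ht x =>
    (hC₁ t ht x).trans ((le_max_left _ _).trans (le_max_left _ _))
  have hAv := hA T' v h0 hT' hv fun t ht x =>
    (hC₂ t ht x).trans ((le_max_right _ _).trans (le_max_left _ _))
  obtain ⟨Cq, Q⟩ := G.Qd'
  refine G.eq_of_co (hu.mem t ht) (hv.mem t ht) (hAu t ht) fun k => ?_
  exact quad_unique Q G.lmd_nonneg (y := fun k t => co φ ψ ρ lam (u t) k)
    (z := fun k t => co φ ψ ρ lam (v t) k) (fun j t ht => hAu t ht j) (fun j t ht => hAv t ht j)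
    (fun j => by rw [hu.init, hv.init]) (fun k t ht => G.co_deriv hu hAu k ht)
    (fun k t ht => G.co_deriv hv hAv k ht) ht k

/-- the synthesised path solves the tested equations -/
theorem Good.synth (G : Good φ ρ ψ x₁ ν T lam R c0 vd ks Ns) {A τ : ℝ} (hA : 0 ≤ A) {y : ℕ → ℝ → ℝ}
    (hyb : ∀ k, ∀ t ∈ Icc 0 τ, |y k t| ≤ A)
    (hyd : ∀ k, ∀ t ∈ Icc 0 τ, HasDerivWithinAt (y k)
      (-(lmd φ ψ ρ lam ν k) * y k t + Nl (Bt φ ψ ρ lam) PI k (fun j => y j t)) (Icc 0 τ) t) :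
    (∀ s ∈ Icc 0 τ, InX (Fam φ ψ ρ (MM lam) (EE lam))
      (Uf φ ψ ρ (MM lam) (EE lam) (y 0 s) (fun n => y (n + 1) s * bb lam n))) ∧
    (∃ C, ∀ s ∈ Icc 0 τ, ∀ x,
      ‖Uf φ ψ ρ (MM lam) (EE lam) (y 0 s) (fun n => y (n + 1) s * bb lam n) x‖ ≤ C) ∧
    (∀ k, ∀ s ∈ Icc 0 τ, HasDerivWithinAt (fun s => ip (Uf φ ψ ρ (MM lam) (EE lam) (y 0 s)
        (fun n => y (n + 1) s * bb lam n)) (Fam φ ψ ρ (MM lam) (EE lam) k))
      (tri (Uf φ ψ ρ (MM lam) (EE lam) (y 0 s) (fun n => y (n + 1) s * bb lam n))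
        (Fam φ ψ ρ (MM lam) (EE lam) k)
        (Uf φ ψ ρ (MM lam) (EE lam) (y 0 s) (fun n => y (n + 1) s * bb lam n))
      - ν * dir (Uf φ ψ ρ (MM lam) (EE lam) (y 0 s) (fun n => y (n + 1) s * bb lam n))
        (Fam φ ψ ρ (MM lam) (EE lam) k)) (Icc 0 τ) s) := by
  set w : ℝ → V → V := fun s => Uf φ ψ ρ (MM lam) (EE lam) (y 0 s)
    (fun n => y (n + 1) s * bb lam n) with hw
  have hb := bb_pos lam
  have P := G.P
  have S := G.S
  have hα : ∀ s ∈ Icc 0 τ, ∀ n, |(fun n => y (n + 1) s * bb lam n) n| ≤ A * bb lam n := by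
    intro s hs n
    simp only
    rw [abs_mul, abs_of_pos (hb n)]
    exact mul_le_mul_of_nonneg_right (hyb (n + 1) s hs) (hb n).le
  have hX : ∀ s ∈ Icc 0 τ, InX (Fam φ ψ ρ (MM lam) (EE lam)) (w s) := fun s hs =>
    Uf_InX P S G.M1 G.Wt _ hA (hα s hs)
  have hPT := PP_TF P S
  obtain ⟨B0, hB0, hB0'⟩ := cs_bound hPT.cont (R := sr ψ) (PP_zero P S)
  obtain ⟨K, hK0, hK⟩ := SS_bound P S G.M1 G.Wt
  have hbd : ∀ s ∈ Icc 0 τ, ∀ x, ‖w s x‖ ≤ A * B0 + A * K := by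
    intro s hs x
    have hSS := hK _ A hA (hα s hs) x
    show ‖(y 0 s • PP ψ ρ (MM lam) (EE lam) + SS φ (MM lam) _) x‖ ≤ _
    refine (norm_add_le _ _).trans (add_le_add ?_ hSS.1)
    rw [Pi.smul_apply, norm_smul, Real.norm_eq_abs]
    exact mul_le_mul (hyb 0 s hs) (hB0' x) (norm_nonneg _) hA
  have hcf : ∀ s ∈ Icc 0 τ, cf ψ ρ (MM lam) (EE lam) (w s) = y 0 s := fun s hs =>
    Uf_cf P S G.M1 G.Wt _ hA (hα s hs)
  have haf : ∀ s ∈ Icc 0 τ, ∀ n, af φ (MM lam) (w s) n = y (n + 1) s * bb lam n := fun s hs n =>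
    Uf_af P S G.Wt _ (hα s hs) n
  have hco : ∀ s ∈ Icc 0 τ, co φ ψ ρ lam (w s) = fun j => y j s := by
    intro s hs
    ext j
    cases j with
    | zero => exact hcf s hs
    | succ n =>
      show af φ (MM lam) (w s) n / bb lam n = _
      rw [haf s hs, mul_div_cancel_right₀ _ (hb n).ne']
  refine ⟨hX, ⟨_, hbd⟩, fun k s hs => ?_⟩
  cases k with
  | zero =>
    have hG := PP_ip_pos P S
    have h1 := match0 (ν := ν) P S G.half (hX s hs)
    rw [hco s hs] at h1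
    have h2 := (hyd 0 s hs).mul_const (ip (PP ψ ρ (MM lam) (EE lam)) (PP ψ ρ (MM lam) (EE lam)))
    rw [← h1, div_mul_cancel₀ _ hG.ne'] at h2
    refine h2.congr (fun s hs => ?_) ?_
    · have h3 := hcf s hs
      unfold cf at h3
      rw [div_eq_iff hG.ne'] at h3
      exact h3
    · have h3 := hcf s hs
      unfold cf at h3
      rw [div_eq_iff hG.ne'] at h3
      exact h3
  | succ n =>
    have hF := φ_pos P
    have h1 := match1 (ν := ν) P S G.one G.half (hX s hs) (r := A)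
      (fun k => by rw [hco s hs]; exact hyb k s hs) n
    rw [hco s hs] at h1
    have h2 := (hyd (n + 1) s hs).mul_const (bb lam n * ip φ φ)
    rw [← h1] at h2
    have h4 : (tri (w s) (sc (MM lam n) φ) (w s) - ν * dir (w s) (sc (MM lam n) φ)) / ip φ φ
        / bb lam n * (bb lam n * ip φ φ)
        = tri (w s) (sc (MM lam n) φ) (w s) - ν * dir (w s) (sc (MM lam n) φ) := by
      have := (hb n).ne'
      field_simp
    rw [h4] at h2
    have h5 : ∀ s ∈ Icc 0 τ, ip (w s) (sc (MM lam n) φ) = y (n + 1) s * (bb lam n * ip φ φ) := by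
      intro s hs
      have h3 := haf s hs n
      unfold af at h3
      rw [div_eq_iff hF.ne'] at h3
      rw [h3]; ring
    exact h2.congr (fun s hs => h5 s hs) (h5 s hs)

/-- continuation with a uniform time step -/
theorem Good.extend (G : Good φ ρ ψ x₁ ν T lam R c0 vd ks Ns) (n₀ : ℕ) :
    ∃ τ > 0, ∀ T' u, 0 ≤ T' → T' ≤ T →
      GSol ν (Fam φ ψ ρ (MM lam) (EE lam)) vd T' u →
      Dom φ ν lam n₀ T' u →
      ∃ v, GSol ν (Fam φ ψ ρ (MM lam) (EE lam)) vd (T' + τ) v := by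
  obtain ⟨A, hA0, hdec⟩ := G.decay0 n₀
  obtain ⟨Cq, Q⟩ := G.Qd'
  obtain ⟨τ, hτ, hex⟩ := local_exist Q G.lmd_nonneg hA0
  refine ⟨τ, hτ, fun T' u hT'0 hT' hu hgrad => ?_⟩
  have hTT : T' ∈ Icc 0 T' := ⟨hT'0, le_rfl⟩
  obtain ⟨y, hy0, hyb, hyd⟩ := hex (co φ ψ ρ lam (u T')) (hdec T' u hT'0 hT' hu hgrad T' hTT)
  obtain ⟨hX, ⟨Cw, hCw⟩, hder⟩ := G.synth (A := 2 * A) (by positivity) hyb hyd
  set w : ℝ → V → V := fun s => Uf φ ψ ρ (MM lam) (EE lam) (y 0 s)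
    (fun n => y (n + 1) s * bb lam n) with hw
  have hb := bb_pos lam
  have hw0 : w 0 = u T' := by
    have hα : ∀ n, |af φ (MM lam) (u T') n| ≤ A * bb lam n := by
      intro n
      have h1 : |af φ (MM lam) (u T') n / bb lam n| ≤ A :=
        hdec T' u hT'0 hT' hu hgrad T' hTT (n + 1)
      rwa [abs_div, abs_of_pos (hb n), div_le_iff₀ (hb n)] at h1
    rw [eq_Uf G.P G.S G.Wt (hu.mem T' hTT) hα]
    have e1 : y 0 0 = cf ψ ρ (MM lam) (EE lam) (u T') := hy0 0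
    have e2 : (fun n => y (n + 1) 0 * bb lam n) = af φ (MM lam) (u T') := by
      ext n
      rw [hy0 (n + 1)]
      show af φ (MM lam) (u T') n / bb lam n * bb lam n = _
      rw [div_mul_cancel₀ _ (hb n).ne']
    rw [hw]
    simp only
    rw [e1, e2]
  set v : ℝ → V → V := fun t => if t < T' then u t else w (t - T') with hv
  have hvu : ∀ t ∈ Icc 0 T', v t = u t := by
    intro t ht
    rw [hv]
    simp only
    split_ifs with h
    · rfl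
    · have : t = T' := le_antisymm ht.2 (not_lt.mp h)
      rw [this, sub_self, hw0]
  have hvw : ∀ t ∈ Icc T' (T' + τ), v t = w (t - T') := by
    intro t ht
    rw [hv]
    simp only
    rw [if_neg (not_lt.mpr ht.1)]
  have hsh : ∀ t ∈ Icc T' (T' + τ), t - T' ∈ Icc 0 τ := fun t ht =>
    ⟨by linarith [ht.1], by linarith [ht.2]⟩
  obtain ⟨Cu, hCu⟩ := hu.bdd
  refine ⟨v, ⟨by rw [hvu 0 ⟨le_rfl, hT'0⟩, hu.init], fun t ht => ?_, ⟨max Cu Cw, fun t ht x => ?_⟩,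
    fun k => ?_⟩⟩
  · rcases le_total t T' with h | h
    · rw [hvu t ⟨ht.1, h⟩]; exact hu.mem t ⟨ht.1, h⟩
    · rw [hvw t ⟨h, ht.2⟩]; exact hX _ (hsh t ⟨h, ht.2⟩)
  · rcases le_total t T' with h | h
    · rw [hvu t ⟨ht.1, h⟩]
      exact (hCu t ⟨ht.1, h⟩ x).trans (le_max_left _ _)
    · rw [hvw t ⟨h, ht.2⟩]
      exact (hCw _ (hsh t ⟨h, ht.2⟩) x).trans (le_max_right _ _)
  · refine glue (F := fun t => tri (v t) (Fam φ ψ ρ (MM lam) (EE lam) k) (v t)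
      - ν * dir (v t) (Fam φ ψ ρ (MM lam) (EE lam) k)) hT'0 hτ.le (fun t ht => ?_) (fun t ht => ?_)
    · rw [hvu t ht]
      exact (hu.eq k t ht).congr (fun s hs => by rw [hvu s hs]) (by rw [hvu t ht])
    · rw [hvw t ht]
      have h1 := hder k (t - T') (hsh t ht)
      have h2 : HasDerivWithinAt (fun s : ℝ => s - T') 1 (Icc T' (T' + τ)) t :=
        (hasDerivWithinAt_id t _).sub_const T'
      have h3 := HasDerivWithinAt.scomp t h1 h2 (fun s hs => hsh s hs)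
      rw [one_smul] at h3
      exact h3.congr (fun s hs => by rw [hvw s hs]; rfl) (by rw [hvw t ht]; rfl)

/-- the zero-time solution -/
theorem Good.zero_sol (G : Good φ ρ ψ x₁ ν T lam R c0 vd ks Ns) :
    GSol ν (Fam φ ψ ρ (MM lam) (EE lam)) vd 0 (fun _ => vd) := by
  have hT : TF vd := span_TF (Fam_TF G.P G.S) G.vm
  obtain ⟨r, hr⟩ := hT.out
  obtain ⟨C1, hC1, hC1'⟩ := cs_bound hT.cont (fun x hx => (hr x hx).1)
  refine ⟨rfl, fun t _ => ⟨hT, fun η hη => ⟨vd, G.vm, by simp [hη.le]⟩⟩,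
    ⟨C1, fun t _ x => hC1' x⟩, fun k t ht => ?_⟩
  have ht0 : t = 0 := le_antisymm ht.2 ht.1
  subst ht0
  rw [Icc_self]
  exact hasDerivWithinAt_iff_hasFDerivWithinAt.mpr HasFDerivWithinAt.singleton

end

end Pool.Agent.H402AW
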