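import Mathlib
import Pool.Agent.H402AW.Blow

/-! Blow-up of the norm of `L^q` for all `q > 2`. -/

open Set MeasureTheory Filter Topology Finset
open scoped RealInnerProductSpace ContDiff

namespace Pool.Agent.H402AW

variable {φ ρ ψ : V → V} {x₁ : V} {ν T lam R c0 : ℝ} {vd : V → V} {ks Ns : ℕ}

theorem af_Lq (P : Prof φ ρ ψ x₁) (lam : ℝ) {q : ℝ} (hq : 1 < q) :
    ∃ K, 0 ≤ K ∧ ∀ v : V → V, Continuous v → HasCompactSupport v → ∀ n,
      |af φ (MM lam) v n| ≤ K * (∫ x, ‖v x‖ ^ q) ^ (1 / q)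
        * Real.exp (-((3 - 6 / q) / 2 * LL lam n)) := by
  have hF := φ_pos P
  have hcj : q.HolderConjugate q.conjExponent := Real.HolderConjugate.conjExponent hq
  set q' := q.conjExponent with hq'
  have hq'0 : 0 < q' := hcj.symm.pos
  have hq0 : 0 < q := by linarith
  have hinv : 1 / q' = 1 - 1 / q := by
    have := hcj.inv_add_inv_eq_one
    rw [one_div, one_div]
    linarith
  set N := ∫ x, ‖φ x‖ ^ q' with hN
  have hN0 : 0 ≤ N := integral_nonneg fun x => Real.rpow_nonneg (norm_nonneg _) _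
  refine ⟨N ^ (1 / q') / ip φ φ, by positivity, fun v hv hvc n => ?_⟩
  have hM := MM_pos lam n
  have hscT : TF (sc (MM lam n) φ) := sc_TF hM P.φT
  have h1 : |ip v (sc (MM lam n) φ)|
      ≤ (∫ x, ‖v x‖ ^ q) ^ (1 / q) * (∫ x, ‖sc (MM lam n) φ x‖ ^ q') ^ (1 / q') := by
    refine le_trans ?_ (integral_mul_le_Lp_mul_Lq_of_nonneg hcj (f := fun x => ‖v x‖)
      (g := fun x => ‖sc (MM lam n) φ x‖) (ae_of_all _ fun x => norm_nonneg _)
      (ae_of_all _ fun x => norm_nonneg _)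
      (hv.norm.memLp_of_hasCompactSupport hvc.norm)
      (hscT.cont.norm.memLp_of_hasCompactSupport hscT.cs.norm))
    unfold ip
    rw [← Real.norm_eq_abs]
    refine (norm_integral_le_integral_norm _).trans ?_
    refine integral_mono (ip_int hv hscT).norm ?_ fun x => ?_
    · obtain ⟨r, hr⟩ := hscT.out
      have := hscT.cont
      exact integrable_of_zero (by fun_prop) (R := r) fun x hx => by simp [(hr x hx).1]
    · rw [Real.norm_eq_abs]
      exact abs_real_inner_le_norm _ _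
  have h2 : ∫ x, ‖sc (MM lam n) φ x‖ ^ q'
      = Real.exp (3 / 2 * LL lam n) ^ q' * Real.exp (-(3 * LL lam n)) * N := by
    have e1 : ∫ x, MM lam n ^ 6 * ‖φ (MM lam n ^ 2 • x)‖ ^ q' = N :=
      int_scale hM (fun x => ‖φ x‖ ^ q')
    rw [integral_const_mul] at e1
    have e2 : MM lam n ^ 6 = Real.exp (3 * LL lam n) := by
      rw [MM_pow]; congr 1; push_cast; ring
    have e3 : MM lam n ^ 3 = Real.exp (3 / 2 * LL lam n) := by
      rw [MM_pow]; congr 1; push_cast; ring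
    have e4 : ∀ x, ‖sc (MM lam n) φ x‖ ^ q'
        = Real.exp (3 / 2 * LL lam n) ^ q' * ‖φ (MM lam n ^ 2 • x)‖ ^ q' := by
      intro x
      unfold sc
      rw [norm_smul, Real.norm_eq_abs, abs_of_pos (by positivity), e3,
        Real.mul_rpow (Real.exp_pos _).le (norm_nonneg _)]
    simp only [e4]
    rw [integral_const_mul, mul_assoc, ← e1, e2, ← mul_assoc (Real.exp (-(3 * LL lam n))),
      ← Real.exp_add, neg_add_cancel, Real.exp_zero, one_mul]
  have h3 : (∫ x, ‖sc (MM lam n) φ x‖ ^ q') ^ (1 / q')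
      = Real.exp (-((3 - 6 / q) / 2 * LL lam n)) * N ^ (1 / q') := by
    rw [h2, Real.mul_rpow (by positivity) hN0]
    congr 1
    rw [← Real.exp_mul, ← Real.exp_add, ← Real.exp_mul]
    congr 1
    have e1 : q' * (1 / q') = 1 := by field_simp
    have e2 : (3 / 2 * LL lam n * q' + -(3 * LL lam n)) * (1 / q')
        = 3 / 2 * LL lam n * (q' * (1 / q')) - 3 * LL lam n * (1 / q') := by ring
    rw [e2, e1, hinv]
    ring
  unfold af
  rw [abs_div, abs_of_pos hF, div_le_iff₀ hF]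
  rw [h3] at h1
  refine h1.trans (le_of_eq ?_)
  field_simp

theorem Good.vel_unbdd (G : Good φ ρ ψ x₁ ν T lam R c0 vd ks Ns) {Ts : ℝ} {u : ℝ → V → V} (hTs : 0 < Ts)
    (hsol : ∀ T', 0 ≤ T' → T' < Ts →
      GSol ν (Fam φ ψ ρ (MM lam) (EE lam)) vd T' u)
    (h : ∀ n₀, ∃ t, 0 ≤ t ∧ t < Ts ∧ ∃ n ≥ n₀, muu (ν * dir φ φ / ip φ φ) lam n <
        W (gg (-hf φ φ / ip φ φ) lam) (fun n t => af φ (MM lam) (u t) n) n t) (C : ℝ) :
    ∃ t, 0 ≤ t ∧ t < Ts ∧ ∃ x, C < ‖u t x‖ := by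
  by_contra hcon
  push Not at hcon
  have hC0 : 0 ≤ C := (norm_nonneg _).trans (hcon 0 le_rfl hTs 0)
  obtain ⟨n₀, hn₀⟩ := G.dom_vel hC0
  obtain ⟨t, ht0, ht, n, hn, hlt⟩ := h n₀
  have h1 := hn₀ t u (hsol t ht0 ht).mem
    (fun s hs x => hcon s hs.1 (lt_of_le_of_lt hs.2 ht) x) t ⟨ht0, le_rfl⟩ n hn
  linarith

theorem rr_dom {lam s K : ℝ} (hlam : 1 ≤ lam) (hs : 0 < s) (hK : 0 ≤ K) :
    ∀ᶠ n in atTop, K * Real.exp (-(s / 2 * LL lam n)) < rr n := by
  have h1 : Tendsto (fun n : ℕ => (n : ℝ) ^ 1 / (6 / 5 : ℝ) ^ n) atTop (𝓝 0) :=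
    tendsto_pow_const_div_const_pow_of_one_lt 1 (by norm_num)
  have h2 : ∀ᶠ n in atTop, K * 4 / s < LL lam n := (LL_tendsto hlam).eventually_gt_atTop _
  filter_upwards [h1.eventually (gt_mem_nhds (show 0 < s / 24 by positivity)), h2] with n e1 e2
  have hp : (0 : ℝ) < (6 / 5) ^ n := by positivity
  rw [pow_one, div_lt_iff₀ hp] at e1
  rw [div_lt_iff₀ hs] at e2
  have e3 := pow_le_LL hlam n
  have hL : 0 < LL lam n := by linarith
  have e4 : (64 : ℝ) ^ n ≤ Real.exp (s / 4 * LL lam n) := by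
    have e5 : (64 : ℝ) ≤ Real.exp 6 := by
      have h3 : (2 : ℝ) ≤ Real.exp 1 := by
        have := Real.add_one_le_exp (1 : ℝ)
        linarith
      have h4 : Real.exp 6 = Real.exp 1 ^ 6 := by rw [← Real.exp_nat_mul]; norm_num
      rw [h4]
      calc (64 : ℝ) = 2 ^ 6 := by norm_num
        _ ≤ _ := pow_le_pow_left₀ (by norm_num) h3 6
    calc (64 : ℝ) ^ n ≤ Real.exp 6 ^ n := pow_le_pow_left₀ (by norm_num) e5 n
      _ = Real.exp (n * 6) := by rw [← Real.exp_nat_mul]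
      _ ≤ _ := Real.exp_le_exp.mpr (by nlinarith)
  have e6 : K < Real.exp (s / 4 * LL lam n) := by
    have := Real.add_one_le_exp (s / 4 * LL lam n)
    nlinarith
  have e7 : Real.exp (-(s / 2 * LL lam n))
      = (Real.exp (s / 4 * LL lam n))⁻¹ * (Real.exp (s / 4 * LL lam n))⁻¹ := by
    rw [← Real.exp_neg, ← Real.exp_add]; congr 1; ring
  unfold rr
  set X := Real.exp (s / 4 * LL lam n) with hX
  have hXp : 0 < X := Real.exp_pos _
  have h64 : (0 : ℝ) < 64 ^ n := by positivity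
  rw [e7, lt_div_iff₀ h64]
  calc K * (X⁻¹ * X⁻¹) * 64 ^ n ≤ K * (X⁻¹ * X⁻¹) * X :=
        mul_le_mul_of_nonneg_left e4 (by positivity)
    _ = K * X⁻¹ := by field_simp
    _ < X * X⁻¹ := mul_lt_mul_of_pos_right e6 (by positivity)
    _ = 1 := mul_inv_cancel₀ hXp.ne'

/-- all the norms above `L²` are unbounded -/
theorem Good.Lq_unbdd (G : Good φ ρ ψ x₁ ν T lam R c0 vd ks Ns) {Ts : ℝ} {u : ℝ → V → V}
    (hTs : 0 < Ts) (hTsT : Ts ≤ T)
    (hsol : ∀ T', 0 ≤ T' → T' < Ts →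
      GSol ν (Fam φ ψ ρ (MM lam) (EE lam)) vd T' u)
    (h : ∀ n₀, ∃ t, 0 ≤ t ∧ t < Ts ∧ ∃ n ≥ n₀, muu (ν * dir φ φ / ip φ φ) lam n <
        W (gg (-hf φ φ / ip φ φ) lam) (fun n t => af φ (MM lam) (u t) n) n t)
    {q : ℝ} (hq : 2 < q) (C : ℝ) :
    ∃ t, 0 ≤ t ∧ t < Ts ∧ C < ∫ x, ‖u t x‖ ^ q := by
  by_contra hcon
  push Not at hcon
  have P := G.P
  have hF := φ_pos P
  have hqq : 0 < -hf φ φ := by linarith [G.P.q_pos]
  have hA := dir_φ_pos P
  have hν := G.ν_pos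
  have hlam := G.one
  have hC0 : 0 ≤ C := (integral_nonneg fun x => Real.rpow_nonneg (norm_nonneg _) _).trans
    (hcon 0 le_rfl hTs)
  obtain ⟨K, hK0, hK⟩ := af_Lq P lam (q := q) (by linarith)
  have hq0 : 0 < q := by linarith
  have hs0 : 0 < 3 - 6 / q := by
    have h1 : 6 / q < 3 := by
      rw [div_lt_iff₀ hq0]
      linarith
    linarith
  have hK'0 : 0 ≤ K * C ^ (1 / q) := by positivity
  have ha : ∀ t, 0 ≤ t → t < Ts → ∀ m, |af φ (MM lam) (u t) m|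
      ≤ K * C ^ (1 / q) * Real.exp (-((3 - 6 / q) / 2 * LL lam m)) := by
    intro t ht0 ht m
    have hT := ((hsol t ht0 ht).mem t ⟨ht0, le_rfl⟩).1
    refine (hK _ hT.cont hT.cs m).trans ?_
    refine mul_le_mul_of_nonneg_right ?_ (Real.exp_pos _).le
    refine mul_le_mul_of_nonneg_left ?_ hK0
    exact Real.rpow_le_rpow (integral_nonneg fun x => Real.rpow_nonneg (norm_nonneg _) _)
      (hcon t ht0 ht) (by positivity)
  obtain ⟨n, hn, hnk⟩ := ((rr_dom hlam hs0 hK'0).and (eventually_ge_atTop ks)).exists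
  have hinit : u 0 = vd := (hsol 0 le_rfl hTs).init
  obtain ⟨N, hN⟩ := cascade_dom hTs
    (fun T' h0 hT' => G.shell T' u h0 (hT'.le.trans hTsT) (hsol T' h0 hT')) G.par
    (by show rs Ns ks ≤ af φ (MM lam) (u 0) ks; rw [hinit]; exact G.a0)
    (by show af φ (MM lam) (u 0) (ks + 1) = _; rw [hinit]; exact G.a1)
    (fun n hn => by show af φ (MM lam) (u 0) n = 0; rw [hinit]; exact G.az n hn)
    ⟨n, hnk, fun t ht0 ht => by
      show af φ (MM lam) (u t) n < rs Ns n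
      refine ((le_abs_self _).trans (ha t ht0 ht n)).trans_lt (hn.trans_le ?_)
      unfold rs rr
      exact one_div_le_one_div_of_le (by positivity)
        (pow_le_pow_right₀ (by norm_num) (Nat.sub_le n Ns))⟩
  obtain ⟨c₁, hc₁⟩ : ∃ c₁, c₁ = w (gg (-hf φ φ / ip φ φ) lam) R (N + 1) := ⟨_, rfl⟩
  obtain ⟨m₁, hm₁⟩ : ∃ m₁, m₁ = ν * dir φ φ / ip φ φ := ⟨_, rfl⟩
  have hm₁0 : 0 < m₁ := by rw [hm₁]; positivity
  have hev : ∀ᶠ n in atTop, (|c₁| + 1) / m₁ ≤ LL lam n := (LL_tendsto hlam).eventually_ge_atTop _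
  obtain ⟨n₁, hn₁⟩ := eventually_atTop.mp hev
  obtain ⟨t, ht0, ht, n', hn', hlt⟩ := h (max n₁ N + 1)
  obtain ⟨m, rfl⟩ : ∃ m, n' = m + 1 := ⟨n' - 1, by omega⟩
  have hm1 : n₁ ≤ m := (le_max_left n₁ N).trans (by omega)
  have hmN : N ≤ m := (le_max_right n₁ N).trans (by omega)
  have e1 := hN t ht0 ht m hmN
  rw [← hc₁] at e1
  rw [← hm₁] at hlt
  have e2 := hn₁ m hm1
  rw [div_le_iff₀ hm₁0] at e2
  have hL0 : 0 < LL lam m := by linarith [LL_ge (by linarith : (0 : ℝ) ≤ lam) m]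
  have e3 : c₁ + QQ lam m ≤ muu m₁ lam (m + 1) := by
    unfold QQ muu
    rw [LL_succ]
    have f1 : Real.exp (1 / 2 * LL lam m) * (1 + LL lam m) ≤ Real.exp (2 * (6 / 5 * LL lam m)) := by
      have f2 := Real.add_one_le_exp (LL lam m)
      calc Real.exp (1 / 2 * LL lam m) * (1 + LL lam m)
          ≤ Real.exp (1 / 2 * LL lam m) * Real.exp (LL lam m) :=
            mul_le_mul_of_nonneg_left (by linarith) (Real.exp_pos _).le
        _ = Real.exp (1 / 2 * LL lam m + LL lam m) := by rw [Real.exp_add]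
        _ ≤ _ := Real.exp_le_exp.mpr (by linarith)
    have f2 : 1 ≤ Real.exp (1 / 2 * LL lam m) := Real.one_le_exp (by linarith)
    have f3 := le_abs_self c₁
    have f4 := abs_nonneg c₁
    have f5 : (|c₁| + 1) * Real.exp (1 / 2 * LL lam m)
        ≤ (LL lam m * m₁) * Real.exp (1 / 2 * LL lam m) :=
      mul_le_mul_of_nonneg_right e2 (Real.exp_pos _).le
    have f6 := mul_le_mul_of_nonneg_left f1 hm₁0.le
    have f7 : 0 ≤ m₁ * Real.exp (1 / 2 * LL lam m) := by positivity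
    nlinarith
  linarith

end Pool.Agent.H402AW
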